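import Pool.Agent.H666.RG.Tail

set_option autoImplicit false

open Complex Filter Topology Set MeasureTheory ProbabilityTheory

namespace Pool.Agent.H666.RG
open Pool.Agent.H203.ME

lemma adm_mono {η η' V V' L : ℝ} {F : ℝ → ℝ} (hL : 0 ≤ L) (h1 : η ≤ η') (h2 : V ≤ V') (h : Adm η V L F) :
    Adm η' V' L F :=
  ⟨h.c2, h.l1.trans h1, h.l2.trans (mul_le_mul_of_nonneg_right h1 hL), h.va.trans h2, h.tv.trans h1⟩

lemma sg_scale (g : ℝ → ℝ) {s : ℝ} (hs : 0 < s) : sg (fun x => g (x / s)) = sg g := by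
  unfold sg
  congr 1
  simp_rw [ADML.scale g hs]
  have := ADML.int_scale (fun ξ => ξ * ‖FF g ξ‖ ^ 2) hs
  rw [← this]
  apply integral_congr_ae
  filter_upwards with ξ
  rw [norm_mul, Complex.norm_real, Real.norm_eq_abs, abs_of_pos hs]
  ring

lemma sg_mul (g : ℝ → ℝ) (u : ℝ) : sg (fun x => u * g x) = u ^ 2 * sg g := by
  unfold sg
  have h : ∀ ξ, FF (fun x => u * g x) ξ = (u : ℂ) * FF g ξ := by
    intro ξ
    unfold FF
    rw [← integral_const_mul]
    congr 1
    funext x
    push_cast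
    ring
  simp_rw [h]
  have h2 : ∀ ξ : ℝ, ξ * ‖(u : ℂ) * FF g ξ‖ ^ 2 = u ^ 2 * (ξ * ‖FF g ξ‖ ^ 2) := by
    intro ξ
    rw [norm_mul, Complex.norm_real, Real.norm_eq_abs, mul_pow, sq_abs]
    ring
  simp_rw [h2]
  rw [integral_const_mul]
  ring

lemma XF_mul {F : ℝ → ℝ} (hF : C2c F) (u : ℝ) {T t : ℝ} (hT : 3 ≤ T) (h1 : T ≤ t) (h2 : t ≤ 2 * T) :
    XF (fun x => u * F x) T t = u * XF F T t := by
  have := FINL.XF_lin (k := 1) (F := fun _ => F) (fun _ => hF) (fun _ => u) hT h1 h2
  simpa using this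

/-- the averages of a bump function over `J` separated scales -/
noncomputable def comb (φ : ℝ → ℝ) (J : ℕ) (K q : ℝ) (x : ℝ) : ℝ :=
  (∑ j : Fin J, φ (x / (K * q ^ (j : ℕ)))) / J

/-- separated scales: small variance -/
lemma small_var {φ : ℝ → ℝ} (hf : ContDiff ℝ 2 φ) (hs : HasCompactSupport φ) {J : ℕ} (hJ : 0 < J) :
    ∃ q : ℝ, 1 ≤ q ∧ sg (fun x => ∑ j : Fin J, (1 / (J : ℝ)) * φ (x / q ^ (j : ℕ))) ≤ (|cv φ φ| + 1) / J := by
  have hJ' : (0 : ℝ) < J := by exact_mod_cast hJ
  have h := t_COV J (fun _ => φ) (fun _ => hf) (fun _ => hs) (fun i j => i = j)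
    (fun j T => (max T 1) ^ (j : ℕ)) (fun _ => 1 / (J : ℝ))
    (fun j T => by positivity) (fun i j h T => by rw [h]) ?_
  · have e : (∑ i : Fin J, ∑ j : Fin J, 1 / (J : ℝ) * (1 / (J : ℝ)) * (if i = j then cv φ φ else 0)) =
        cv φ φ / J := by
      simp
      field_simp
    rw [e] at h
    have h2 : cv φ φ / J < (|cv φ φ| + 1) / J := by
      apply div_lt_div_of_pos_right _ hJ'
      linarith [le_abs_self (cv φ φ)]
    obtain ⟨q, h3, h4⟩ := ((h.eventually (gt_mem_nhds h2)).and (eventually_ge_atTop (1 : ℝ))).exists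
    refine ⟨q, h4, ?_⟩
    simp only [max_eq_left h4] at h3
    exact h3.le
  · intro i j hij
    have key : ∀ i j : Fin J, i < j → Tendsto (fun T : ℝ => (max T 1) ^ (i : ℕ) / (max T 1) ^ (j : ℕ)) atTop (𝓝 0) := by
      intro i j hij
      have hd : (0 : ℕ) < (j : ℕ) - (i : ℕ) := by have : (i : ℕ) < j := hij; omega
      have h1 : Tendsto (fun T : ℝ => (T ^ ((j : ℕ) - (i : ℕ)))⁻¹) atTop (𝓝 0) :=
        (tendsto_pow_atTop hd.ne').inv_tendsto_atTop
      refine h1.congr' ?_
      filter_upwards [eventually_ge_atTop (1 : ℝ)] with T hT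
      rw [max_eq_left hT]
      have hle : (i : ℕ) ≤ (j : ℕ) := by have : (i : ℕ) < j := hij; omega
      have : T ^ (j : ℕ) = T ^ ((j : ℕ) - (i : ℕ)) * T ^ (i : ℕ) := by rw [← pow_add]; congr 1; omega
      rw [this]
      have h0 : T ^ (i : ℕ) ≠ 0 := pow_ne_zero _ (by linarith)
      have h00 : T ^ ((j : ℕ) - (i : ℕ)) ≠ 0 := pow_ne_zero _ (by linarith)
      field_simp
    rcases lt_or_gt_of_ne hij with h1 | h1
    · exact Or.inl (key i j h1)
    · exact Or.inr (key j i h1)

/-- **the core**: for every accuracy there is a wide smooth window (uniform in the size `a` of the inner window)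
for which the count is predictable, at random heights and at random zeros -/
theorem core {φ : ℝ → ℝ} (hf : ContDiff ℝ 3 φ) (hs : HasCompactSupport φ) {ε : ℝ} (hε : 0 < ε) :
    ∃ (J : ℕ) (K q M : ℝ), 0 < J ∧ 1 ≤ K ∧ 1 ≤ q ∧ 10 ≤ M ∧ ∀ T a : ℝ, M ≤ T → 1 ≤ a → a ≤ Real.log T / M →
      C2c (fun x => comb φ J K q (x * Real.log T / (2 * Real.pi * a))) ∧
      volume {t | t ∈ Icc T (2 * T) ∧
        ε / 2 < |XF (fun x => comb φ J K q (x * Real.log T / (2 * Real.pi * a))) T t|} ≤ ENNReal.ofReal (ε * T) ∧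
      ∑ z ∈ (H370.Zf riemannZeta T (2 * T)).filter (fun z => ε / 2 <
        |XF (fun x => comb φ J K q (x * Real.log T / (2 * Real.pi * a))) T z.im|), (mz z : ℝ) ≤
        ε * H370.NN riemannZeta T (2 * T) := by
  have hf2 : ContDiff ℝ 2 φ := hf.of_le (by norm_num)
  have hf' : ContDiff ℝ 2 (deriv φ) := by
    have h1 := hf
    rw [show (3 : WithTop ℕ∞) = 2 + 1 by norm_num, contDiff_succ_iff_deriv] at h1
    exact h1.2.2
  set S : ℝ := |cv φ φ| + 1 with hS
  have hSpos : 0 < S := by positivity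
  obtain ⟨J, hJ⟩ := exists_nat_ge (32 * S / ε ^ 3 + 4 / ε + 1)
  have hJ1 : (1 : ℝ) ≤ J := le_trans (by have : 0 < 32 * S / ε ^ 3 + 4 / ε := by positivity
                                         linarith) hJ
  have hJ0 : 0 < J := by exact_mod_cast (lt_of_lt_of_le one_pos hJ1)
  have hJr : (0 : ℝ) < J := by linarith
  have hJ2 : 4 / ε ≤ J := le_trans (by have : 0 < 32 * S / ε ^ 3 := by positivity
                                       linarith) hJ
  have hJ3 : 32 * S / ε ^ 3 ≤ J := le_trans (by have : 0 < 4 / ε := by positivity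
                                                linarith) hJ
  obtain ⟨q, hq, hvar⟩ := small_var hf2 hs hJ0
  obtain ⟨V1, hV1, hA1⟩ := t_ADM J (fun _ => φ) (fun _ => hf2) (fun _ => hs)
  obtain ⟨V2, hV2, hA2⟩ := t_ADM J (fun _ => deriv φ) (fun _ => hf') (fun _ => hs.deriv)
  set V := max V1 V2 with hV
  have hVpos : 0 < V := lt_max_of_lt_left hV1
  obtain ⟨η1, T1, hη1, -, hT1, hM⟩ := p_MAIN V (ε / 8) hVpos (by positivity)
  obtain ⟨η2, T2, hη2, -, hT2, hZ⟩ := p_ZER V (ε / 64) hVpos (by positivity)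
  obtain ⟨T3, hT3, hlow⟩ := FINL.nn_low
  set η := min η1 η2 with hη
  have hηpos : 0 < η := lt_min hη1 hη2
  obtain ⟨K1, hK1, hB1⟩ := hA1 η hηpos
  obtain ⟨K2, hK2, hB2⟩ := hA2 η hηpos
  set K := max (max K1 K2) (1 / η) with hK
  have hK_1 : K1 ≤ K := (le_max_left _ _).trans (le_max_left _ _)
  have hK_2 : K2 ≤ K := (le_max_right _ _).trans (le_max_left _ _)
  have hK_3 : 1 / η ≤ K := le_max_right _ _
  have hKone : 1 ≤ K := hK1.trans hK_1
  set M := max (max (max T1 T2) T3) (2 * Real.pi * K * q ^ J * K) with hMdef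
  refine ⟨J, K, q, M, hJ0, hKone, hq, ?_, ?_⟩
  · exact hT1.trans ((le_max_left _ _).trans ((le_max_left _ _).trans (le_max_left _ _)))
  intro T a hMT ha haT
  have hMT1 : T1 ≤ T := ((le_max_left _ _).trans ((le_max_left _ _).trans (le_max_left _ _))).trans hMT
  have hMT2 : T2 ≤ T := ((le_max_right _ _).trans ((le_max_left _ _).trans (le_max_left _ _))).trans hMT
  have hMT3 : T3 ≤ T := ((le_max_right _ _).trans (le_max_left _ _)).trans hMT
  have hMb : 2 * Real.pi * K * q ^ J * K ≤ M := le_max_right _ _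
  have hT10 : 10 ≤ T := hT1.trans hMT1
  have hMpos : 0 < M := by
    have : 0 < 2 * Real.pi * K * q ^ J * K := by positivity
    linarith
  obtain ⟨hlow1, hL1⟩ := hlow T hMT3
  set L := Real.log T with hL
  have hLpos : 0 < L := by linarith
  have haM : a * M ≤ L := by rw [le_div_iff₀ hMpos] at haT; exact haT
  have hpi : 0 < Real.pi := Real.pi_pos
  set s : ℝ := 2 * Real.pi * a * K / L with hs_def
  have hspos : 0 < s := by positivity
  set h : Fin J → ℝ := fun j => s * q ^ (j : ℕ) with hh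
  have hq1 : ∀ n : ℕ, 1 ≤ q ^ n := fun n => one_le_pow₀ hq
  have hcond : ∀ j, 0 < h j ∧ h j ≤ 1 / K ∧ K ≤ h j * L := by
    intro j
    refine ⟨by positivity, ?_, ?_⟩
    · rw [le_div_iff₀ (by linarith)]
      have h1 : h j * K = (2 * Real.pi * K * q ^ (j : ℕ) * K) * a / L := by
        simp only [hh, hs_def]; ring
      rw [h1, div_le_one hLpos]
      have h2 : 2 * Real.pi * K * q ^ (j : ℕ) * K ≤ 2 * Real.pi * K * q ^ J * K := by
        have : q ^ (j : ℕ) ≤ q ^ J := pow_le_pow_right₀ hq j.2.le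
        gcongr
      calc (2 * Real.pi * K * q ^ (j : ℕ) * K) * a ≤ M * a := by
            apply mul_le_mul_of_nonneg_right (h2.trans hMb) (by linarith)
        _ ≤ L := by linarith
    · have h1 : h j * L = K * (2 * Real.pi * a * q ^ (j : ℕ)) := by
        simp only [hh, hs_def]; field_simp
      rw [h1]
      have h2 : 1 ≤ 2 * Real.pi * a * q ^ (j : ℕ) := by
        have h3 := hq1 j
        have h4 := Real.pi_gt_three
        have h5 : 1 ≤ a * q ^ (j : ℕ) := by nlinarith
        nlinarith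
      nlinarith
  have hc1 : ∀ j, 0 < h j ∧ h j ≤ 1 / K1 ∧ K1 ≤ h j * L := fun j => by
    obtain ⟨a1, a2, a3⟩ := hcond j
    exact ⟨a1, a2.trans (one_div_le_one_div_of_le (by linarith) hK_1), hK_1.trans a3⟩
  have hc2 : ∀ j, 0 < h j ∧ h j ≤ 1 / K2 ∧ K2 ≤ h j * L := fun j => by
    obtain ⟨a1, a2, a3⟩ := hcond j
    exact ⟨a1, a2.trans (one_div_le_one_div_of_le (by linarith) hK_2), hK_2.trans a3⟩
  have had1 := hB1 L h
  have had2 := hB2 L h
  set F : ℝ → ℝ := fun x => comb φ J K q (x * L / (2 * Real.pi * a)) with hF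
  have hFe : ∀ x, F x = ∑ j : Fin J, (1 / (J : ℝ)) * φ (x / h j) := by
    intro x
    simp only [hF, comb]
    rw [Finset.sum_div]
    refine Finset.sum_congr rfl fun j _ => ?_
    have : x * L / (2 * Real.pi * a) / (K * q ^ (j : ℕ)) = x / h j := by
      simp only [hh, hs_def]; field_simp
    rw [this]; ring
  have hFG : F = fun x => (fun y => ∑ j : Fin J, (1 / (J : ℝ)) * φ (y / q ^ (j : ℕ))) (x / s) := by
    funext x
    rw [hFe]
    refine Finset.sum_congr rfl fun j _ => ?_
    simp only [hh]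
    rw [div_div]
  have hsg : sg F ≤ S / J := by
    have h0 := sg_scale (fun y => ∑ j : Fin J, (1 / (J : ℝ)) * φ (y / q ^ (j : ℕ))) hspos
    rw [hFG, h0]
    exact hvar
  have hsg0 : 0 ≤ sg F := FINL.sg_nonneg F
  -- admissibility of multiples
  have hadm : ∀ u : ℝ, |u| ≤ J → Adm η V L (fun x => u * F x) := by
    intro u hu
    have h1 := had1 (fun _ => u / J) hL1 hc1 (fun j => by
      rw [abs_div, abs_of_pos hJr, div_le_one hJr]; exact hu)
    have e : (fun x => ∑ j : Fin J, u / (J : ℝ) * φ (x / h j)) = fun x => u * F x := by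
      funext x
      rw [hFe, Finset.mul_sum]
      exact Finset.sum_congr rfl fun j _ => by ring
    rw [e] at h1
    exact adm_mono hLpos.le le_rfl (le_max_left _ _) h1
  have hadm' : ∀ u : ℝ, |u| ≤ J → Adm η V L (fun x => s * deriv (fun x => u * F x) x) := by
    intro u hu
    have h1 := had2 (fun j => u / J * (s / h j)) hL1 hc2 (fun j => by
      have h2 : s / h j = 1 / q ^ (j : ℕ) := by
        simp only [hh]
        have : q ^ (j : ℕ) ≠ 0 := by positivity
        field_simp
      have h3 : 0 ≤ s / h j := by rw [h2]; positivity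
      have h4 : s / h j ≤ 1 := by
        rw [h2, div_le_one (by positivity)]
        exact hq1 j
      rw [abs_mul, abs_div, abs_of_pos hJr, abs_of_nonneg h3]
      have h5 : |u| / J ≤ 1 := by rw [div_le_one hJr]; exact hu
      have h6 : 0 ≤ |u| / J := by positivity
      nlinarith)
    have e : (fun x => ∑ j : Fin J, u / (J : ℝ) * (s / h j) * deriv φ (x / h j)) =
        fun x => s * deriv (fun x => u * F x) x := by
      funext x
      have hd : HasDerivAt (fun x => u * F x) (u * ∑ j : Fin J, (1 / (J : ℝ)) * (deriv φ (x / h j) * (1 / h j))) x := by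
        refine HasDerivAt.const_mul _ ?_
        have h0 : F = fun x => ∑ j : Fin J, (1 / (J : ℝ)) * φ (x / h j) := funext hFe
        rw [h0]
        refine HasDerivAt.fun_sum fun j _ => HasDerivAt.const_mul _ ?_
        have h1 : HasDerivAt φ (deriv φ (x / h j)) (x / h j) :=
          (hf.differentiable (by norm_num) _).hasDerivAt
        exact h1.comp x ((hasDerivAt_id x).div_const (h j))
      rw [hd.deriv, Finset.mul_sum, Finset.mul_sum]
      exact Finset.sum_congr rfl fun j _ => by ring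
    rw [e] at h1
    exact adm_mono hLpos.le le_rfl (le_max_right _ _) h1
  have hc2F : C2c F := by
    have h1 := (hadm 1 (by rw [abs_one]; exact hJ1)).c2
    simpa using h1
  have hr : 0 < ε / 2 := by positivity
  have hur : ∀ u : ℝ, |u| ≤ 2 / (ε / 2) → |u| ≤ J := fun u hu => by
    have : 2 / (ε / 2) = 4 / ε := by field_simp; ring
    rw [this] at hu
    exact hu.trans hJ2
  have hfin : 2 * (ε / 8) + 4 * sg F / (ε / 2) ^ 2 ≤ ε := by
    have h1 : sg F ≤ ε ^ 3 / 32 := by
      refine hsg.trans ?_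
      rw [div_le_iff₀ hJr]
      rw [div_le_iff₀ (by positivity)] at hJ3
      linarith
    have h2 : 4 * sg F / (ε / 2) ^ 2 ≤ ε / 2 := by
      rw [div_le_iff₀ (by positivity)]
      nlinarith
    linarith
  refine ⟨hc2F, ?_, ?_⟩
  · refine (tail_heights (by linarith) hr hsg0 (XF_contOn hc2F (by linarith)) (δ := ε / 8) fun u hu => ?_).trans ?_
    · have h1 := hM T hMT1 _ (adm_mono hLpos.le (min_le_left _ _) le_rfl (hadm u (hur u hu)))
      rw [sg_mul] at h1
      refine le_trans (le_of_eq ?_) h1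
      congr 2
      congr 1
      apply intervalIntegral.integral_congr
      intro t ht
      rw [uIcc_of_le (by linarith)] at ht
      simp only
      rw [XF_mul hc2F u (by linarith) ht.1 ht.2]
    · apply ENNReal.ofReal_le_ofReal
      exact mul_le_mul_of_nonneg_right hfin (by linarith)
  · have hNpos : 0 < (H370.NN riemannZeta T (2 * T) : ℝ) := by
      have : 0 < T * L / 8 := by positivity
      linarith
    refine (tail_zeros (by linarith) hr hsg0 hNpos (δ := ε / 8) fun u hu => ?_).trans ?_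
    · have h1 := hZ T hMT2 (fun x => u * F x) s hspos ?_ ?_
        (adm_mono hLpos.le (min_le_right _ _) le_rfl (hadm u (hur u hu)))
        (adm_mono hLpos.le (min_le_right _ _) le_rfl (hadm' u (hur u hu)))
      · rw [sg_mul] at h1
        refine le_trans (le_of_eq ?_) (h1.trans ?_)
        · congr 2
          refine Finset.sum_congr rfl fun z hz => ?_
          rw [H370.mem_Zf H370.good_zeta (by linarith)] at hz
          obtain ⟨-, -, hz1, hz2, -⟩ := hz
          rw [XF_mul hc2F u (by linarith) hz1.le hz2]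
        · nlinarith
      · have h2 := (hcond ⟨0, hJ0⟩).2.1
        simp only [hh, pow_zero, mul_one] at h2
        refine h2.trans ?_
        rw [div_le_iff₀ (by linarith)]
        have h3 := hK_3
        rw [div_le_iff₀ hηpos] at h3
        have h4 : η ≤ η2 := min_le_right _ _
        nlinarith
      · have h3 := hK_3
        rw [div_le_iff₀ hηpos] at h3
        have h4 : η ≤ η2 := min_le_right _ _
        have h5 := (hcond ⟨0, hJ0⟩).2.2
        simp only [hh, pow_zero, mul_one] at h5
        have h6 : K * η ≤ K * η2 := by nlinarith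
        nlinarith
    · exact mul_le_mul_of_nonneg_right hfin hNpos.le

end Pool.Agent.H666.RG
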