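import Pool.Agent.H666.RG.Main

set_option autoImplicit false

open Complex Filter Topology Set MeasureTheory ProbabilityTheory
open scoped BoundedContinuousFunction ENNReal

namespace Pool.Agent.H666.RG
open Pool.Agent.H203.ME

def LimitFromHeights {Ω : Type} [MeasurableSpace Ω] (P : Measure Ω) (X : Ω → Measure ℝ) (τ : ℕ → ℝ) : Prop :=
  ∀ g : ℝ → ℝ, Continuous g → HasCompactSupport g → ∀ ψ : ℝ →ᵇ ℝ,
    Tendsto (fun n => 1 / τ n * ∫ t in (τ n)..(2 * τ n), ψ (∑ᶠ s ∈ zeros, (mult s : ℝ) * g (pos (τ n) t s))) atTop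
      (𝓝 (∫ ω, ψ (∫ x, g x ∂(X ω)) ∂P))

def LimitFromZeros {Ω : Type} [MeasurableSpace Ω] (P : Measure Ω) (X : Ω → Measure ℝ) (τ : ℕ → ℝ) : Prop :=
  ∀ g : ℝ → ℝ, Continuous g → HasCompactSupport g → ∀ ψ : ℝ →ᵇ ℝ,
    Tendsto (fun n => (∑ᶠ z ∈ window (τ n), (mult z : ℝ) *
        ψ (∑ᶠ s ∈ zeros, (mult s : ℝ) * g (pos (τ n) z.im s))) / ∑ᶠ z ∈ window (τ n), (mult z : ℝ)) atTop
      (𝓝 (∫ ω, ψ (∫ x, g x ∂(X ω)) ∂P))

/-- a bounded continuous cut off: `0` when `|x - c| ≤ ε`, `1` when `|x - c| ≥ 2 ε` -/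
noncomputable def cut (c ε : ℝ) : ℝ →ᵇ ℝ :=
  BoundedContinuousFunction.ofNormedAddCommGroup (fun x => min 1 (max 0 (|x - c| / ε - 1))) (by fun_prop) 1 (by
    intro x
    rw [Real.norm_eq_abs, abs_le]
    constructor
    · exact le_trans (by norm_num) (le_min zero_le_one (le_max_left _ _))
    · exact min_le_left _ _)

lemma cut_apply (c ε x : ℝ) : cut c ε x = min 1 (max 0 (|x - c| / ε - 1)) := rfl

lemma cut_le_one (c ε x : ℝ) : cut c ε x ≤ 1 := min_le_left _ _

lemma cut_nonneg (c ε x : ℝ) : 0 ≤ cut c ε x := le_min zero_le_one (le_max_left _ _)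

lemma cut_zero {c ε x : ℝ} (hε : 0 < ε) (h : |x - c| ≤ ε) : cut c ε x = 0 := by
  rw [cut_apply, max_eq_left, min_eq_right zero_le_one]
  rw [sub_nonpos, div_le_one hε]
  exact h

lemma cut_one {c ε x : ℝ} (hε : 0 < ε) (h : 2 * ε ≤ |x - c|) : cut c ε x = 1 := by
  rw [cut_apply, min_eq_left]
  refine le_max_of_le_right ?_
  rw [le_sub_iff_add_le, le_div_iff₀ hε]
  linarith

/-- the consequence of the prediction for the whole statistic -/
lemma predicts_empty {f : ℝ → ℝ} {a ε T t : ℝ} (h : Predicts f a ε T t) :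
    |(∑ᶠ s ∈ zeros, (mult s : ℝ) * f (pos T t s)) - ∫ x, f x| < ε := by
  have h1 := h ∅ (empty_subset _)
  have e1 : count ∅ T t = 0 := by
    unfold count
    simp
  have e2 : outside f ∅ T t = ∑ᶠ s ∈ zeros, (mult s : ℝ) * f (pos T t s) := by
    unfold outside
    simp
  rw [e1, e2, zero_sub, neg_sub] at h1
  exact h1

/-- the averages over heights -/
lemma avg_heights {f : ℝ → ℝ} {a ε T : ℝ} (hT : 0 < T) (hε : 0 < ε)
    (h : volume {t | t ∈ Icc T (2 * T) ∧ ¬ Predicts f a ε T t} ≤ ENNReal.ofReal (ε * T)) :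
    1 / T * ∫ t in T..(2 * T), cut (∫ x, f x) ε (∑ᶠ s ∈ zeros, (mult s : ℝ) * f (pos T t s)) ≤ ε := by
  rw [intervalIntegral.integral_of_le (by linarith), one_div, inv_mul_le_iff₀ hT]
  have h1 := integral_le_measure (μ := volume.restrict (Ioc T (2 * T))) (s := {t | ¬ Predicts f a ε T t})
    (f := fun t => cut (∫ x, f x) ε (∑ᶠ s ∈ zeros, (mult s : ℝ) * f (pos T t s)))
    (fun t _ => cut_le_one _ _ _) (fun t ht => by
      have h2 : Predicts f a ε T t := by
        by_contra hcon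
        exact ht hcon
      exact (cut_zero hε (predicts_empty h2).le).le)
  rw [Measure.restrict_apply' measurableSet_Ioc] at h1
  have h2 : volume ({t | ¬ Predicts f a ε T t} ∩ Ioc T (2 * T)) ≤ ENNReal.ofReal (ε * T) := by
    refine (measure_mono ?_).trans h
    rintro t ⟨h3, h4⟩
    exact ⟨Ioc_subset_Icc_self h4, h3⟩
  have h3 := h1.trans h2
  rw [ENNReal.ofReal_le_ofReal_iff (by positivity)] at h3
  linarith

/-- the averages over zeros -/
lemma avg_zeros {f : ℝ → ℝ} {a ε T : ℝ} (hT : 1 ≤ T) (hε : 0 < ε)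
    (h : ∑ᶠ s ∈ {s | s ∈ window T ∧ ¬ Predicts f a ε T s.im}, (mult s : ℝ) ≤
        ε * ∑ᶠ s ∈ window T, (mult s : ℝ)) :
    (∑ᶠ z ∈ window T, (mult z : ℝ) * cut (∫ x, f x) ε (∑ᶠ s ∈ zeros, (mult s : ℝ) * f (pos T z.im s))) /
      ∑ᶠ z ∈ window T, (mult z : ℝ) ≤ ε := by
  classical
  have hset : window T = H370.zset riemannZeta T (2 * T) := by
    ext s
    exact ⟨fun ⟨⟨a, b, c⟩, d, e⟩ => ⟨b, c, d, e, a⟩, fun ⟨b, c, d, e, a⟩ => ⟨⟨a, b, c⟩, d, e⟩⟩
  have hfin : (window T).Finite := by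
    rw [hset]; exact H370.zset_finite H370.good_zeta _ _ (by linarith)
  have h0 : 0 ≤ ∑ᶠ z ∈ window T, (mult z : ℝ) := by
    rw [finsum_mem_eq_finite_toFinset_sum _ hfin]
    exact Finset.sum_nonneg fun z _ => Nat.cast_nonneg _
  refine div_le_of_le_mul₀ h0 hε.le (le_trans ?_ h)
  have hfin2 : {s | s ∈ window T ∧ ¬ Predicts f a ε T s.im}.Finite := hfin.subset fun s hs => hs.1
  rw [finsum_mem_eq_finite_toFinset_sum _ hfin2, finsum_mem_eq_finite_toFinset_sum _ hfin]
  have hsub : hfin2.toFinset ⊆ hfin.toFinset := by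
    intro s hs
    rw [Set.Finite.mem_toFinset] at hs ⊢
    exact hs.1
  rw [← Finset.sum_subset hsub]
  · refine Finset.sum_le_sum fun z _ => ?_
    exact mul_le_of_le_one_right (Nat.cast_nonneg _) (cut_le_one _ _ _)
  · intro z hz hz2
    have h2 : Predicts f a ε T z.im := by
      by_contra hcon
      apply hz2
      rw [Set.Finite.mem_toFinset] at hz ⊢
      exact ⟨hz, hcon⟩
    rw [cut_zero hε (predicts_empty h2).le, mul_zero]

/-- in the limit -/
lemma limit_tail {Ω : Type} [MeasurableSpace Ω] {P : Measure Ω} [IsProbabilityMeasure P] {X : Ω → Measure ℝ}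
    (hX : Measurable X) {g : ℝ → ℝ} (hg : Continuous g) (h0 : ∀ x, 0 ≤ g x) {c ε : ℝ} (hε : 0 < ε)
    (h : ∫ ω, cut c ε (∫ x, g x ∂(X ω)) ∂P ≤ ε) :
    P {ω | 2 * ε ≤ |(∫ x, g x ∂(X ω)) - c|} ≤ ENNReal.ofReal ε := by
  have hint : ∀ ω, ∫ x, g x ∂(X ω) = (∫⁻ x, ENNReal.ofReal (g x) ∂(X ω)).toReal := fun ω =>
    integral_eq_lintegral_of_nonneg_ae (Eventually.of_forall h0) hg.aestronglyMeasurable
  have hm : Measurable fun ω => ∫ x, g x ∂(X ω) := by
    simp_rw [hint]
    exact ((Measure.measurable_lintegral (hg.measurable.ennreal_ofReal)).comp hX).ennreal_toReal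
  have hi : Integrable (fun ω => cut c ε (∫ x, g x ∂(X ω))) P := by
    refine Integrable.of_bound (C := 1) ?_ ?_
    · exact ((cut c ε).continuous.measurable.comp hm).aestronglyMeasurable
    · filter_upwards with ω
      rw [Real.norm_eq_abs, abs_of_nonneg (cut_nonneg _ _ _)]
      exact cut_le_one _ _ _
  set A := {ω | 2 * ε ≤ |(∫ x, g x ∂(X ω)) - c|} with hA
  have hAm : MeasurableSet A := by
    apply measurableSet_le measurable_const
    exact (hm.sub_const c).norm
  have h1 : P.real A ≤ ∫ ω, cut c ε (∫ x, g x ∂(X ω)) ∂P := by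
    rw [← integral_indicator_one hAm]
    refine integral_mono ((integrable_const (1 : ℝ)).indicator hAm) hi fun ω => ?_
    by_cases hω : ω ∈ A
    · rw [indicator_of_mem hω]
      simp only [Pi.one_apply]
      exact (cut_one hε hω).ge
    · rw [indicator_of_notMem hω]
      exact cut_nonneg _ _ _
  rw [← ofReal_measureReal]
  exact ENNReal.ofReal_le_ofReal (h1.trans h)

theorem main2 : ∃ Φ : Measure ℝ → ℝ≥0∞, Measurable Φ ∧
    ∀ (Ω : Type) [MeasurableSpace Ω] (P : Measure Ω) [IsProbabilityMeasure P] (X : Ω → Measure ℝ), Measurable X →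
      (∀ᵐ ω ∂P, IsLocallyFiniteMeasure (X ω)) → ∀ τ : ℕ → ℝ, Tendsto τ atTop atTop →
      (LimitFromHeights P X τ ∨ LimitFromZeros P X τ) →
      ∀ B : Set ℝ, MeasurableSet B → Bornology.IsBounded B → ∀ᵐ ω ∂P, X ω B = Φ ((X ω).restrict Bᶜ) := by
  set e : ℕ → ℝ := fun k => (1 / 2 : ℝ) ^ k with he
  have hepos : ∀ k, 0 < e k := fun k => by positivity
  choose M f hM hf1 hf2 hf3 hf4 hf5 using fun k => main1 (e k) (hepos k)
  set g : ℕ → ℝ → ℝ := fun k x => f k (x / ((k : ℝ) + 1)) with hg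
  have hk1 : ∀ k : ℕ, (0 : ℝ) < (k : ℝ) + 1 := fun k => by positivity
  have hgc : ∀ k, Continuous (g k) := fun k =>
    (hf1 k).continuous.comp (continuous_id.div_const _)
  have hgs : ∀ k, HasCompactSupport (g k) := by
    intro k
    apply HasCompactSupport.intro (isCompact_Icc (a := -(M k * (k + 1))) (b := M k * (k + 1)))
    intro x hx
    apply hf4
    rw [abs_div, abs_of_pos (hk1 k), le_div_iff₀ (hk1 k)]
    by_contra hcon
    push Not at hcon
    exact hx (abs_le.1 hcon.le)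
  have hg0 : ∀ k x, 0 ≤ g k x := fun k x => (hf2 k _).1
  have hg1 : ∀ (k : ℕ) (x : ℝ), |x| ≤ (k : ℝ) + 1 → g k x = 1 := by
    intro k x hx
    apply hf3
    rw [abs_div, abs_of_pos (hk1 k), div_le_one (hk1 k)]
    exact hx
  set c : ℕ → ℝ := fun k => ∫ x, g k x with hc
  have hc0 : ∀ k, 0 ≤ c k := fun k => integral_nonneg (hg0 k)
  have hmeas : ∀ k, Measurable fun x => ENNReal.ofReal (g k x) := fun k => (hgc k).measurable.ennreal_ofReal
  refine ⟨fun μ => limsup (fun k => ENNReal.ofReal (c k) - ∫⁻ x, ENNReal.ofReal (g k x) ∂μ) atTop, ?_, ?_⟩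
  · exact Measurable.limsup fun k => measurable_const.sub (Measure.measurable_lintegral (hmeas k))
  intro Ω _ P _ X hX hloc τ hτ hlim B hB hBb
  -- the tail
  have htail : ∀ k, P {ω | 2 * e k ≤ |(∫ x, g k x ∂(X ω)) - c k|} ≤ ENNReal.ofReal (e k) := by
    intro k
    apply limit_tail hX (hgc k) (hg0 k) (hepos k)
    have hev : ∀ᶠ n in atTop, M k ≤ τ n ∧ (k : ℝ) + 1 ≤ Real.log (τ n) / M k := by
      refine (hτ.eventually_ge_atTop _).and ?_
      have : Tendsto (fun n => Real.log (τ n)) atTop atTop := Real.tendsto_log_atTop.comp hτ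
      filter_upwards [this.eventually_ge_atTop (((k : ℝ) + 1) * M k)] with n hn
      rw [le_div_iff₀ (by linarith [hM k])]
      exact hn
    rcases hlim with h | h
    · refine le_of_tendsto (h (g k) (hgc k) (hgs k) (cut (c k) (e k))) ?_
      filter_upwards [hev] with n hn
      exact avg_heights (by linarith [hM k]) (hepos k) (hf5 k (τ n) (k + 1) hn.1 (by linarith [hk1 k, (Nat.cast_nonneg k : (0 : ℝ) ≤ k)]) hn.2).1
    · refine le_of_tendsto (h (g k) (hgc k) (hgs k) (cut (c k) (e k))) ?_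
      filter_upwards [hev] with n hn
      exact avg_zeros (by linarith [hM k]) (hepos k) (hf5 k (τ n) (k + 1) hn.1 (by linarith [hk1 k, (Nat.cast_nonneg k : (0 : ℝ) ≤ k)]) hn.2).2
  have hsum : ∑' k, P {ω | 2 * e k ≤ |(∫ x, g k x ∂(X ω)) - c k|} ≠ ∞ := by
    refine ne_top_of_le_ne_top ?_ (ENNReal.tsum_le_tsum htail)
    have : Summable e := summable_geometric_of_lt_one (by norm_num) (by norm_num)
    exact this.tsum_ofReal_ne_top
  have hbc := ae_eventually_notMem hsum
  filter_upwards [hbc, hloc] with ω hω hlω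
  -- deterministic part
  obtain ⟨R, hR⟩ := hBb.subset_closedBall 0
  have hBR : ∀ x ∈ B, |x| ≤ R := fun x hx => by
    have := hR hx
    rwa [mem_closedBall_zero_iff, Real.norm_eq_abs] at this
  set μ := X ω with hμ
  have hfinint : ∀ k, ∫⁻ x, ENNReal.ofReal (g k x) ∂μ ≠ ∞ := by
    intro k
    have : Integrable (g k) μ := (hgc k).integrable_of_hasCompactSupport (hgs k)
    have h2 := this.2
    rw [hasFiniteIntegral_iff_ofReal (Eventually.of_forall (hg0 k))] at h2
    exact h2.ne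
  have hreal : ∀ k, ∫ x, g k x ∂μ = (∫⁻ x, ENNReal.ofReal (g k x) ∂μ).toReal := fun k =>
    integral_eq_lintegral_of_nonneg_ae (Eventually.of_forall (hg0 k)) (hgc k).aestronglyMeasurable
  have hBfin : μ B ≠ ∞ := (hBb.measure_lt_top).ne
  have hvfin : ∀ k, ∫⁻ x, ENNReal.ofReal (g k x) ∂(μ.restrict Bᶜ) ≠ ∞ := fun k =>
    ne_top_of_le_ne_top (hfinint k) (lintegral_mono' Measure.restrict_le_self le_rfl)
  have hsplit : ∀ᶠ k : ℕ in atTop, ∫⁻ x, ENNReal.ofReal (g k x) ∂μ =
      μ B + ∫⁻ x, ENNReal.ofReal (g k x) ∂(μ.restrict Bᶜ) := by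
    obtain ⟨k0, hk0⟩ := exists_nat_ge R
    filter_upwards [eventually_ge_atTop k0] with k hk
    rw [← lintegral_add_compl _ hB]
    congr 1
    have : ∫⁻ x in B, ENNReal.ofReal (g k x) ∂μ = ∫⁻ x in B, 1 ∂μ := by
      refine setLIntegral_congr_fun hB fun x hx => ?_
      rw [hg1 k x ?_, ENNReal.ofReal_one]
      have h1 := hBR x hx
      have h2 : (k0 : ℝ) ≤ k := by exact_mod_cast hk
      linarith
    rw [this, lintegral_one, Measure.restrict_apply_univ]
  have hlimit : Tendsto (fun k => ENNReal.ofReal (c k) - ∫⁻ x, ENNReal.ofReal (g k x) ∂(μ.restrict Bᶜ)) atTop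
      (𝓝 (μ B)) := by
    have he0 : Tendsto (fun k => ENNReal.ofReal (2 * e k)) atTop (𝓝 0) := by
      have h1 : Tendsto (fun k => 2 * e k) atTop (𝓝 (2 * 0)) :=
        (tendsto_pow_atTop_nhds_zero_of_lt_one (by norm_num) (by norm_num)).const_mul 2
      rw [mul_zero] at h1
      have := (ENNReal.continuous_ofReal.tendsto 0).comp h1
      rwa [ENNReal.ofReal_zero] at this
    have hup : Tendsto (fun k => μ B + ENNReal.ofReal (2 * e k)) atTop (𝓝 (μ B)) := by
      have := (tendsto_const_nhds (x := μ B)).add he0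
      rwa [add_zero] at this
    have hlo : Tendsto (fun k => μ B - ENNReal.ofReal (2 * e k)) atTop (𝓝 (μ B)) := by
      have := ENNReal.Tendsto.sub (tendsto_const_nhds (x := μ B)) he0 (Or.inl hBfin)
      rwa [tsub_zero] at this
    refine tendsto_of_tendsto_of_tendsto_of_le_of_le' hlo hup ?_ ?_
    · filter_upwards [hω, hsplit] with k h1 h2
      have h3 : |(∫ x, g k x ∂μ) - c k| < 2 * e k := by
        by_contra hcon
        push Not at hcon
        exact h1 hcon
      have h4 := (abs_lt.1 h3).2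
      rw [hreal k] at h4
      have h5 : ∫⁻ x, ENNReal.ofReal (g k x) ∂μ ≤ ENNReal.ofReal (c k) + ENNReal.ofReal (2 * e k) := by
        rw [← ENNReal.ofReal_add (hc0 k) (by linarith [hepos k]), ← ENNReal.ofReal_toReal (hfinint k)]
        exact ENNReal.ofReal_le_ofReal (by linarith)
      rw [h2] at h5
      rw [tsub_le_iff_right]
      have h6 := hvfin k
      rw [← ENNReal.add_le_add_iff_right h6]
      refine h5.trans ?_
      calc ENNReal.ofReal (c k) + ENNReal.ofReal (2 * e k) ≤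
          (ENNReal.ofReal (c k) - ∫⁻ x, ENNReal.ofReal (g k x) ∂(μ.restrict Bᶜ) +
            ∫⁻ x, ENNReal.ofReal (g k x) ∂(μ.restrict Bᶜ)) + ENNReal.ofReal (2 * e k) := by
            gcongr
            exact le_tsub_add
        _ = _ := by ring
    · filter_upwards [hω, hsplit] with k h1 h2
      have h3 : |(∫ x, g k x ∂μ) - c k| < 2 * e k := by
        by_contra hcon
        push Not at hcon
        exact h1 hcon
      have h4 := (abs_lt.1 h3).1
      rw [hreal k] at h4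
      have h5 : ENNReal.ofReal (c k) ≤ ∫⁻ x, ENNReal.ofReal (g k x) ∂μ + ENNReal.ofReal (2 * e k) := by
        rw [← ENNReal.ofReal_toReal (hfinint k), ← ENNReal.ofReal_add ENNReal.toReal_nonneg (by linarith [hepos k])]
        exact ENNReal.ofReal_le_ofReal (by linarith)
      rw [h2] at h5
      rw [tsub_le_iff_right]
      refine h5.trans (le_of_eq ?_)
      ring
  exact hlimit.limsup_eq.symm

end Pool.Agent.H666.RG
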