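import Pool.Agent.H666.RG.Core

set_option autoImplicit false

open Complex Filter Topology Set MeasureTheory ProbabilityTheory
open scoped BoundedContinuousFunction ENNReal ContDiff

namespace Pool.Agent.H666.RG
open Pool.Agent.H203.ME

def zeros : Set ℂ := {s : ℂ | riemannZeta s = 0 ∧ 0 < s.re ∧ s.re < 1}

noncomputable def mult (s : ℂ) : ℕ := analyticOrderNatAt riemannZeta s

def window (T : ℝ) : Set ℂ := {s : ℂ | s ∈ zeros ∧ T < s.im ∧ s.im ≤ 2 * T}

noncomputable def pos (T t : ℝ) (s : ℂ) : ℝ := (s.im - t) * Real.log T / (2 * Real.pi)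

noncomputable def count (I : Set ℝ) (T t : ℝ) : ℝ := ∑ᶠ s ∈ {s : ℂ | s ∈ zeros ∧ pos T t s ∈ I}, (mult s : ℝ)

noncomputable def outside (f : ℝ → ℝ) (I : Set ℝ) (T t : ℝ) : ℝ :=
  ∑ᶠ s ∈ {s : ℂ | s ∈ zeros ∧ pos T t s ∉ I}, (mult s : ℝ) * f (pos T t s)

def Predicts (f : ℝ → ℝ) (a ε T t : ℝ) : Prop :=
  ∀ I ⊆ Icc (-a) a, |count I T t - ((∫ x, f x) - outside f I T t)| < ε

/-- from the centred statistic to the prediction -/
lemma predicts_of {g : ℝ → ℝ} {a ε T t : ℝ} (hT : 10 ≤ T) (ht : T ≤ t) (ha : 1 ≤ a)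
    (hg : ∀ x, |x| ≤ 1 → g x = 1)
    (hc : C2c (fun x => g (x * Real.log T / (2 * Real.pi * a))))
    (h : |XF (fun x => g (x * Real.log T / (2 * Real.pi * a))) T t| < ε) :
    Predicts (fun x => g (x / a)) a ε T t := by
  intro I hI
  have hL : 0 < Real.log T := Real.log_pos (by linarith)
  have ha0 : 0 < a := by linarith
  have hpi := Real.pi_pos
  have harg : ∀ s : ℂ, (s.im - t) * Real.log T / (2 * Real.pi * a) = pos T t s / a := by
    intro s; unfold pos; rw [div_div]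
  -- the support is finite
  have hsupp : ∀ s : ℂ, g (pos T t s / a) ≠ 0 → |s.im - t| < 1 := by
    intro s hs
    by_contra hcon
    push Not at hcon
    have := hc.supp (s.im - t) hcon
    simp only [harg] at this
    exact hs this
  have hfin : (zeros ∩ {s : ℂ | |s.im - t| < 1}).Finite := by
    have h1 : (H370.zset riemannZeta (t - 2) (t + 2)).Finite :=
      H370.zset_finite H370.good_zeta _ _ (by linarith)
    refine h1.subset ?_
    rintro s ⟨⟨h1, h2, h3⟩, h4⟩
    have h5 := abs_lt.1 (show |s.im - t| < 1 from h4)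
    exact ⟨h2, h3, by linarith [h5.1], by linarith [h5.2], h1⟩
  have hin : ∀ s : ℂ, pos T t s ∈ I → g (pos T t s / a) = 1 := by
    intro s hs
    apply hg
    rw [abs_div, abs_of_pos ha0, div_le_one ha0]
    exact abs_le.2 (hI hs)
  have hA : ({s : ℂ | s ∈ zeros ∧ pos T t s ∈ I} ∩ Function.support fun s => (mult s : ℝ) * g (pos T t s / a)).Finite := by
    refine hfin.subset ?_
    rintro s ⟨⟨h1, -⟩, h3⟩
    exact ⟨h1, hsupp s (right_ne_zero_of_mul h3)⟩
  have hB : ({s : ℂ | s ∈ zeros ∧ pos T t s ∉ I} ∩ Function.support fun s => (mult s : ℝ) * g (pos T t s / a)).Finite := by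
    refine hfin.subset ?_
    rintro s ⟨⟨h1, -⟩, h3⟩
    exact ⟨h1, hsupp s (right_ne_zero_of_mul h3)⟩
  have hAB : Disjoint {s : ℂ | s ∈ zeros ∧ pos T t s ∈ I} {s : ℂ | s ∈ zeros ∧ pos T t s ∉ I} := by
    rw [Set.disjoint_left]
    rintro s ⟨-, h1⟩ ⟨-, h2⟩
    exact h2 h1
  have hU : {s : ℂ | s ∈ zeros ∧ pos T t s ∈ I} ∪ {s : ℂ | s ∈ zeros ∧ pos T t s ∉ I} = zeros := by
    ext s
    simp only [mem_union, mem_ofPred_eq]
    tauto
  have hsum := finsum_mem_union' hAB hA hB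
  rw [hU] at hsum
  have hcount : count I T t = ∑ᶠ s ∈ {s : ℂ | s ∈ zeros ∧ pos T t s ∈ I}, (mult s : ℝ) * g (pos T t s / a) := by
    unfold count
    refine finsum_mem_congr rfl fun s hs => ?_
    rw [hin s hs.2, mul_one]
  have hXF : XF (fun x => g (x * Real.log T / (2 * Real.pi * a))) T t =
      (∑ᶠ s ∈ zeros, (mult s : ℝ) * g (pos T t s / a)) - ∫ x, g (x / a) := by
    unfold XF
    congr 1
    · refine finsum_mem_congr rfl fun s _ => ?_
      simp only [harg]
      rfl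
    · have e1 : ∀ x : ℝ, g (x * Real.log T / (2 * Real.pi * a)) = (fun y => g (y / a)) (x / (2 * Real.pi / Real.log T)) := by
        intro x
        simp only
        congr 1
        field_simp
      simp_rw [e1]
      rw [Measure.integral_comp_div (fun y => g (y / a)), abs_of_pos (by positivity), smul_eq_mul]
      field_simp
  have hkey : count I T t - ((∫ x, g (x / a)) - outside (fun x => g (x / a)) I T t) =
      XF (fun x => g (x * Real.log T / (2 * Real.pi * a))) T t := by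
    rw [hXF, hsum, hcount]
    unfold outside
    ring
  rw [hkey]
  exact h

/-- the smooth bump -/
noncomputable def bump : ContDiffBump (0 : ℝ) := ⟨1, 2, one_pos, one_lt_two⟩

lemma bump_one {x : ℝ} (hx : |x| ≤ 1) : bump x = 1 := by
  apply bump.one_of_mem_closedBall
  rw [mem_closedBall_zero_iff]
  exact hx

lemma bump_zero {x : ℝ} (hx : 2 ≤ |x|) : bump x = 0 := by
  apply bump.zero_of_le_dist
  rw [dist_zero_right]
  exact hx

lemma comb_one {J : ℕ} (hJ : 0 < J) {K q x : ℝ} (hK : 1 ≤ K) (hq : 1 ≤ q) (hx : |x| ≤ 1) :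
    comb bump J K q x = 1 := by
  unfold comb
  have : ∀ j : Fin J, bump (x / (K * q ^ (j : ℕ))) = 1 := by
    intro j
    apply bump_one
    have h1 : 1 ≤ K * q ^ (j : ℕ) := by
      have := one_le_pow₀ hq (n := (j : ℕ))
      nlinarith
    rw [abs_div, abs_of_pos (by linarith : (0 : ℝ) < K * q ^ (j : ℕ)), div_le_one (by linarith)]
    linarith
  simp only [this]
  have hJ' : (J : ℝ) ≠ 0 := by exact_mod_cast hJ.ne'
  simp [hJ']

lemma comb_zero {J : ℕ} {K q x : ℝ} (hK : 1 ≤ K) (hq : 1 ≤ q) (hx : 2 * K * q ^ J ≤ |x|) :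
    comb bump J K q x = 0 := by
  unfold comb
  rw [Finset.sum_eq_zero, zero_div]
  intro j _
  apply bump_zero
  have h0 : 0 < K * q ^ (j : ℕ) := by positivity
  rw [abs_div, abs_of_pos h0, le_div_iff₀ h0]
  have : q ^ (j : ℕ) ≤ q ^ J := pow_le_pow_right₀ hq j.2.le
  have h2 : 2 * (K * q ^ (j : ℕ)) ≤ 2 * K * q ^ J := by
    have := mul_le_mul_of_nonneg_left this (by linarith : (0 : ℝ) ≤ 2 * K)
    linarith
  linarith

lemma comb_mem {J : ℕ} (hJ : 0 < J) (K q x : ℝ) : 0 ≤ comb bump J K q x ∧ comb bump J K q x ≤ 1 := by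
  unfold comb
  have hJ' : (0 : ℝ) < J := by exact_mod_cast hJ
  constructor
  · exact div_nonneg (Finset.sum_nonneg fun j _ => bump.nonneg) hJ'.le
  · rw [div_le_one hJ']
    calc ∑ j : Fin J, bump (x / (K * q ^ (j : ℕ))) ≤ ∑ _j : Fin J, (1 : ℝ) :=
          Finset.sum_le_sum fun j _ => bump.le_one
      _ = J := by simp

lemma comb_contDiff (J : ℕ) (K q : ℝ) : ContDiff ℝ ∞ (comb bump J K q) := by
  unfold comb
  refine ContDiff.div_const (ContDiff.sum fun j _ => ?_) _
  exact bump.contDiff.comp (contDiff_id.div_const _)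

theorem main1 (ε : ℝ) (hε : 0 < ε) : ∃ (M : ℝ) (f : ℝ → ℝ), 10 ≤ M ∧ ContDiff ℝ ∞ f ∧
    (∀ x, 0 ≤ f x ∧ f x ≤ 1) ∧ (∀ x, |x| ≤ 1 → f x = 1) ∧ (∀ x, M ≤ |x| → f x = 0) ∧
    ∀ T a : ℝ, M ≤ T → 1 ≤ a → a ≤ Real.log T / M →
      volume {t | t ∈ Icc T (2 * T) ∧ ¬ Predicts (fun x => f (x / a)) a ε T t} ≤ ENNReal.ofReal (ε * T) ∧
      ∑ᶠ s ∈ {s | s ∈ window T ∧ ¬ Predicts (fun x => f (x / a)) a ε T s.im}, (mult s : ℝ) ≤
        ε * ∑ᶠ s ∈ window T, (mult s : ℝ) := by
  classical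
  obtain ⟨J, K, q, M, hJ, hK, hq, hM, h⟩ := core (φ := bump) bump.contDiff bump.hasCompactSupport hε
  refine ⟨max M (2 * K * q ^ J), comb bump J K q, le_max_of_le_left hM, comb_contDiff J K q,
    comb_mem hJ K q, fun x hx => comb_one hJ hK hq hx, fun x hx => comb_zero hK hq ((le_max_right _ _).trans hx),
    fun T a hT ha haT => ?_⟩
  have hMT : M ≤ T := (le_max_left _ _).trans hT
  have hT10 : 10 ≤ T := hM.trans hMT
  have hL : 0 < Real.log T := Real.log_pos (by linarith)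
  have haM : a ≤ Real.log T / M :=
    haT.trans (div_le_div_of_nonneg_left hL.le (by linarith) (le_max_left _ _))
  obtain ⟨h1, h2, h3⟩ := h T a hMT ha haM
  have hcomb : ∀ x, |x| ≤ 1 → comb bump J K q x = 1 := fun x hx => comb_one hJ hK hq hx
  constructor
  · refine (measure_mono ?_).trans h2
    rintro t ⟨ht, hbad⟩
    refine ⟨ht, ?_⟩
    by_contra hcon
    push Not at hcon
    exact hbad (predicts_of hT10 ht.1 ha hcomb h1 (by linarith))
  · have hset : window T = H370.zset riemannZeta T (2 * T) := by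
      ext s
      exact ⟨fun ⟨⟨a, b, c⟩, d, e⟩ => ⟨b, c, d, e, a⟩, fun ⟨b, c, d, e, a⟩ => ⟨⟨a, b, c⟩, d, e⟩⟩
    have hfin : (window T).Finite := by
      rw [hset]; exact H370.zset_finite H370.good_zeta _ _ (by linarith)
    have hN : (∑ᶠ s ∈ window T, (mult s : ℝ)) = H370.NN riemannZeta T (2 * T) := by
      rw [hset, H370.finsum_Zf H370.good_zeta (by linarith), H370.NN_eq H370.good_zeta (by linarith)]
      push_cast
      rfl
    rw [hN]
    refine le_trans ?_ h3
    have hfin2 : {s | s ∈ window T ∧ ¬ Predicts (fun x => comb bump J K q (x / a)) a ε T s.im}.Finite :=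
      hfin.subset fun s hs => hs.1
    rw [finsum_mem_eq_finite_toFinset_sum _ hfin2]
    refine Finset.sum_le_sum_of_subset_of_nonneg ?_ fun z _ _ => Nat.cast_nonneg _
    intro s hs
    rw [Set.Finite.mem_toFinset] at hs
    rw [Finset.mem_filter, H370.mem_Zf H370.good_zeta (by linarith), ← hset]
    refine ⟨hs.1, ?_⟩
    by_contra hcon
    push Not at hcon
    exact hs.2 (predicts_of hT10 hs.1.2.1.le ha hcomb h1 (by linarith))

end Pool.Agent.H666.RG
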