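import Pool.Agent.H203.ME.ALL2

set_option autoImplicit false

/-! Tail bounds from characteristic functions, and the uniform smallness of the statistics of the zeros. -/

open Complex Filter Topology Set MeasureTheory ProbabilityTheory

namespace Pool.Agent.H666.RG
open Pool.Agent.H203.ME

/-- tail bound from the characteristic function -/
lemma tail {μ : Measure ℝ} [IsProbabilityMeasure μ] {r δ σ : ℝ} (hr : 0 < r) (hσ : 0 ≤ σ)
    (h : ∀ u : ℝ, |u| ≤ 2 / r → ‖charFun μ u - cexp (-((u ^ 2 * σ : ℝ) : ℂ) / 2)‖ ≤ δ) :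
    μ.real {x | r < |x|} ≤ 2 * δ + 4 * σ / r ^ 2 := by
  refine (measureReal_abs_gt_le_integral_charFun hr).trans ?_
  have h1 : ‖∫ t in (-2 * r⁻¹)..(2 * r⁻¹), 1 - charFun μ t‖ ≤ (δ + 2 * σ / r ^ 2) * |2 * r⁻¹ - (-2 * r⁻¹)| := by
    apply intervalIntegral.norm_integral_le_of_norm_le_const
    intro u hu
    have hr2 : 0 < r⁻¹ := inv_pos.2 hr
    rw [uIoc_of_le (by linarith)] at hu
    have hu1 : |u| ≤ 2 / r := by
      rw [abs_le, div_eq_mul_inv]
      constructor
      · linarith [hu.1]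
      · exact hu.2
    have h2 := h u hu1
    have hu2 : u ^ 2 ≤ 4 / r ^ 2 := by
      have := pow_le_pow_left₀ (abs_nonneg u) hu1 2
      rw [sq_abs, div_pow] at this
      linarith
    have h3 : ‖(1 : ℂ) - cexp (-((u ^ 2 * σ : ℝ) : ℂ) / 2)‖ ≤ u ^ 2 * σ / 2 := by
      have e : cexp (-((u ^ 2 * σ : ℝ) : ℂ) / 2) = ((Real.exp (-(u ^ 2 * σ) / 2) : ℝ) : ℂ) := by
        push_cast; rfl
      rw [e, ← Complex.ofReal_one, ← Complex.ofReal_sub, Complex.norm_real, Real.norm_eq_abs]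
      have h4 : 0 ≤ u ^ 2 * σ := by positivity
      have h5 : Real.exp (-(u ^ 2 * σ) / 2) ≤ 1 := by
        rw [Real.exp_le_one_iff]; linarith
      rw [abs_of_nonneg (by linarith)]
      have := Real.add_one_le_exp (-(u ^ 2 * σ) / 2)
      linarith
    have h4 : u ^ 2 * σ / 2 ≤ 2 * σ / r ^ 2 := by
      have := mul_le_mul_of_nonneg_right hu2 hσ
      have e : 2 * σ / r ^ 2 = 4 / r ^ 2 * σ / 2 := by ring
      rw [e]; linarith
    calc ‖1 - charFun μ u‖ = ‖(1 - cexp (-((u ^ 2 * σ : ℝ) : ℂ) / 2)) -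
          (charFun μ u - cexp (-((u ^ 2 * σ : ℝ) : ℂ) / 2))‖ := by congr 1; ring
      _ ≤ ‖1 - cexp (-((u ^ 2 * σ : ℝ) : ℂ) / 2)‖ + ‖charFun μ u - cexp (-((u ^ 2 * σ : ℝ) : ℂ) / 2)‖ :=
          norm_sub_le _ _
      _ ≤ δ + 2 * σ / r ^ 2 := by linarith
  have hr2 : 0 < r⁻¹ := inv_pos.2 hr
  have h2 : |2 * r⁻¹ - (-2 * r⁻¹)| = 4 * r⁻¹ := by
    rw [abs_of_nonneg (by linarith)]; ring
  rw [h2] at h1
  calc 2⁻¹ * r * ‖∫ t in (-2 * r⁻¹)..(2 * r⁻¹), 1 - charFun μ t‖
      ≤ 2⁻¹ * r * ((δ + 2 * σ / r ^ 2) * (4 * r⁻¹)) := by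
        apply mul_le_mul_of_nonneg_left h1 (by positivity)
    _ = 2 * δ + 4 * σ / r ^ 2 := by
        field_simp
        ring

/-- tail bound over the heights -/
lemma tail_heights {F : ℝ → ℝ} {T r δ σ : ℝ} (hT : 3 ≤ T) (hr : 0 < r) (hσ : 0 ≤ σ)
    (hc : ContinuousOn (XF F T) (Icc T (2 * T)))
    (h : ∀ u : ℝ, |u| ≤ 2 / r → ‖(1 / T : ℂ) * (∫ t in T..(2 * T), cexp (I * ((u * XF F T t : ℝ) : ℂ))) -
      cexp (-((u ^ 2 * σ : ℝ) : ℂ) / 2)‖ ≤ δ) :
    volume {t | t ∈ Icc T (2 * T) ∧ r < |XF F T t|} ≤ ENNReal.ofReal ((2 * δ + 4 * σ / r ^ 2) * T) := by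
  have hT0 : 0 < T := by linarith
  have hm : AEMeasurable (XF F T) (volume.restrict (Icc T (2 * T))) := hc.aemeasurable measurableSet_Icc
  set μ : Measure ℝ := (ENNReal.ofReal T)⁻¹ • (volume.restrict (Icc T (2 * T))).map (XF F T) with hμ
  have hp : IsProbabilityMeasure μ := by
    constructor
    rw [hμ]
    simp only [Measure.smul_apply, smul_eq_mul]
    rw [Measure.map_apply_of_aemeasurable hm MeasurableSet.univ, preimage_univ, Measure.restrict_apply_univ,
      Real.volume_Icc, show 2 * T - T = T by ring]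
    exact ENNReal.inv_mul_cancel (by simpa using hT0) ENNReal.ofReal_ne_top
  have hch : ∀ u : ℝ, charFun μ u = (1 / T : ℂ) * (∫ t in T..(2 * T), cexp (I * ((u * XF F T t : ℝ) : ℂ))) := by
    intro u
    rw [charFun_apply_real, hμ, integral_smul_measure, integral_map hm
      (by fun_prop : Continuous fun x : ℝ => cexp ((u : ℂ) * x * I)).aestronglyMeasurable,
      intervalIntegral.integral_of_le (by linarith), ← integral_Icc_eq_integral_Ioc,
      ENNReal.toReal_inv, ENNReal.toReal_ofReal hT0.le]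
    rw [Complex.real_smul]
    congr 1
    · push_cast; ring
    · congr 1
      funext t
      congr 1
      push_cast
      ring
  have h1 := tail (μ := μ) (δ := δ) (σ := σ) hr hσ fun u hu => by
    rw [hch u]
    exact h u hu
  have h2 : μ {x | r < |x|} = (ENNReal.ofReal T)⁻¹ * volume {t | t ∈ Icc T (2 * T) ∧ r < |XF F T t|} := by
    have hms : MeasurableSet {x : ℝ | r < |x|} := measurableSet_lt measurable_const (by fun_prop)
    rw [hμ]
    simp only [Measure.smul_apply, smul_eq_mul]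
    rw [Measure.map_apply_of_aemeasurable hm hms, Measure.restrict_apply₀' measurableSet_Icc.nullMeasurableSet]
    congr 2
    ext t
    simp only [mem_inter_iff, mem_preimage, mem_setOf_eq]
    tauto
  have h3 : volume {t | t ∈ Icc T (2 * T) ∧ r < |XF F T t|} = ENNReal.ofReal T * μ {x | r < |x|} := by
    rw [h2, ← mul_assoc, ENNReal.mul_inv_cancel (by simpa using hT0) ENNReal.ofReal_ne_top, one_mul]
  rw [h3, ← ofReal_measureReal, ← ENNReal.ofReal_mul hT0.le]
  apply ENNReal.ofReal_le_ofReal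
  rw [mul_comm]
  exact mul_le_mul_of_nonneg_right h1 hT0.le

/-- tail bound over the zeros -/
lemma tail_zeros {F : ℝ → ℝ} {T r δ σ : ℝ} (hT : 1 ≤ T) (hr : 0 < r) (hσ : 0 ≤ σ)
    (hN : 0 < (H370.NN riemannZeta T (2 * T) : ℝ))
    (h : ∀ u : ℝ, |u| ≤ 2 / r → ‖(∑ z ∈ H370.Zf riemannZeta T (2 * T), (mz z : ℂ) *
        cexp (I * ((u * XF F T z.im : ℝ) : ℂ))) -
      (H370.NN riemannZeta T (2 * T) : ℂ) * cexp (-((u ^ 2 * σ : ℝ) : ℂ) / 2)‖ ≤
        δ * H370.NN riemannZeta T (2 * T)) :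
    ∑ z ∈ (H370.Zf riemannZeta T (2 * T)).filter (fun z => r < |XF F T z.im|), (mz z : ℝ) ≤
      (2 * δ + 4 * σ / r ^ 2) * H370.NN riemannZeta T (2 * T) := by
  classical
  set N : ℝ := (H370.NN riemannZeta T (2 * T) : ℝ) with hNdef
  have hsum : ∑ z ∈ H370.Zf riemannZeta T (2 * T), (mz z : ℝ) = N := by
    rw [hNdef, H370.NN_eq H370.good_zeta hT]
    push_cast
    rfl
  set μ : Measure ℝ := ∑ z ∈ H370.Zf riemannZeta T (2 * T),
    ENNReal.ofReal ((mz z : ℝ) / N) • Measure.dirac (XF F T z.im) with hμ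
  have hp : IsProbabilityMeasure μ := by
    constructor
    rw [hμ]
    simp only [Measure.coe_finsetSum, Finset.sum_apply, Measure.smul_apply, smul_eq_mul, measure_univ, mul_one]
    rw [← ENNReal.ofReal_sum_of_nonneg (fun z _ => div_nonneg (Nat.cast_nonneg _) hN.le), ← Finset.sum_div,
      hsum, div_self hN.ne', ENNReal.ofReal_one]
  have hch : ∀ u : ℝ, charFun μ u = (1 / N : ℂ) * ∑ z ∈ H370.Zf riemannZeta T (2 * T), (mz z : ℂ) *
        cexp (I * ((u * XF F T z.im : ℝ) : ℂ)) := by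
    intro u
    rw [charFun_apply_real, hμ, integral_finsetSum_measure]
    · rw [Finset.mul_sum]
      refine Finset.sum_congr rfl fun z _ => ?_
      rw [integral_smul_measure, integral_dirac, ENNReal.toReal_ofReal (div_nonneg (Nat.cast_nonneg _) hN.le),
        Complex.real_smul]
      push_cast
      rw [show (u : ℂ) * (XF F T z.im : ℂ) * I = I * ((u : ℂ) * (XF F T z.im : ℂ)) by ring]
      ring
    · intro z _
      refine Integrable.smul_measure ?_ ENNReal.ofReal_ne_top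
      exact integrable_dirac (by finiteness)
  have h1 := tail (μ := μ) (δ := δ) (σ := σ) hr hσ fun u hu => by
    rw [hch u]
    have e1 : (1 / N : ℂ) * ∑ z ∈ H370.Zf riemannZeta T (2 * T), (mz z : ℂ) *
        cexp (I * ((u * XF F T z.im : ℝ) : ℂ)) - cexp (-((u ^ 2 * σ : ℝ) : ℂ) / 2) = (1 / N : ℂ) *
        ((∑ z ∈ H370.Zf riemannZeta T (2 * T), (mz z : ℂ) * cexp (I * ((u * XF F T z.im : ℝ) : ℂ))) -
      (H370.NN riemannZeta T (2 * T) : ℂ) * cexp (-((u ^ 2 * σ : ℝ) : ℂ) / 2)) := by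
      have hNc : (N : ℂ) ≠ 0 := by rw [Complex.ofReal_ne_zero]; exact hN.ne'
      have e2 : (H370.NN riemannZeta T (2 * T) : ℂ) = (N : ℂ) := by rw [hNdef]; push_cast; rfl
      rw [e2]
      field_simp
    rw [e1, norm_mul, norm_div, norm_one, Complex.norm_real, Real.norm_eq_abs, abs_of_pos hN]
    have := h u hu
    rw [one_div, inv_mul_le_iff₀ hN]
    linarith
  have h2 : μ {x | r < |x|} = ENNReal.ofReal ((∑ z ∈ (H370.Zf riemannZeta T (2 * T)).filter
      (fun z => r < |XF F T z.im|), (mz z : ℝ)) / N) := by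
    have hms : MeasurableSet {x : ℝ | r < |x|} := measurableSet_lt measurable_const (by fun_prop)
    rw [hμ]
    simp only [Measure.coe_finsetSum, Finset.sum_apply, Measure.smul_apply, smul_eq_mul]
    rw [Finset.sum_div, ENNReal.ofReal_sum_of_nonneg (fun z _ => div_nonneg (Nat.cast_nonneg _) hN.le),
      Finset.sum_filter]
    refine Finset.sum_congr rfl fun z _ => ?_
    rw [Measure.dirac_apply' _ hms]
    by_cases hz : r < |XF F T z.im|
    · rw [if_pos hz, indicator_of_mem (by exact hz)]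
      simp
    · rw [if_neg hz, indicator_of_notMem (by exact hz)]
      simp
  have h3 : μ.real {x | r < |x|} = (∑ z ∈ (H370.Zf riemannZeta T (2 * T)).filter
      (fun z => r < |XF F T z.im|), (mz z : ℝ)) / N := by
    rw [Measure.real, h2, ENNReal.toReal_ofReal]
    exact div_nonneg (Finset.sum_nonneg fun _ _ => Nat.cast_nonneg _) hN.le
  rw [h3, div_le_iff₀ hN] at h1
  exact h1

end Pool.Agent.H666.RG
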